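import Pool.Agent.helper26.IM.SpecA

/-!
# Project im: module BPO (peel lemma for two variables)
-/

set_option autoImplicit false

open Finset

namespace Pool.Agent.helper26.IM

open Finset Pool.Agent.RRank Pool.Agent.helper35.MR

theorem BPO_ev {F ι : Type} [Field F] [Fintype ι] [DecidableEq ι] (M : ι → ι → ι → F)
    (i j k o : ι) (s g : F) :
    ev3 M (Pi.single i s) (Pi.single j 1) (Pi.single k 1 - Pi.single o g) =
      s * (M i j k - g * M i j o) := by
  unfold ev3
  rw [Finset.sum_eq_single i (fun b _ hb => by simp [Pi.single_eq_of_ne hb]) (by simp)]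
  rw [Finset.sum_eq_single j (fun b _ hb => by simp [Pi.single_eq_of_ne hb]) (by simp)]
  have h : ∀ x : ι, M i j x * ((Pi.single i s : ι → F) i * (Pi.single j (1 : F) : ι → F) j *
      ((Pi.single k (1 : F) : ι → F) - (Pi.single o g : ι → F)) x) =
      s * M i j x * (Pi.single k (1 : F) : ι → F) x - s * M i j x * (Pi.single o g : ι → F) x := by
    intro x
    rw [Pi.single_eq_same, Pi.single_eq_same, Pi.sub_apply]
    ring
  rw [Finset.sum_congr rfl (fun x _ => h x), Finset.sum_sub_distrib,
    Finset.sum_eq_single k (fun b _ hb => by simp [Pi.single_eq_of_ne hb]) (by simp),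
    Finset.sum_eq_single o (fun b _ hb => by simp [Pi.single_eq_of_ne hb]) (by simp),
    Pi.single_eq_same, Pi.single_eq_same]
  ring

theorem BPO_liP {F ι : Type} [Field F] [Fintype ι] [DecidableEq ι] (s : ι → F)
    (hs : ∀ i, s i ≠ 0) : LinearIndependent F (fun i => (Pi.single i (s i) : ι → F)) := by
  rw [Fintype.linearIndependent_iff]
  intro c hc j
  have h := congrFun hc j
  rw [Finset.sum_apply, Finset.sum_eq_single j
    (fun b _ hb => by simp [Pi.single_eq_of_ne hb.symm]) (by simp)] at h
  simpa [hs j] using h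

theorem BPO_liR {F ι : Type} [Field F] [Fintype ι] [DecidableEq ι] (o : ι) (g : ι → F)
    (hg : g o = 0) :
    LinearIndependent F (fun k => ((Pi.single k 1 : ι → F) - Pi.single o (g k) : ι → F)) := by
  rw [Fintype.linearIndependent_iff]
  intro c hc
  have h1 : ∀ k, k ≠ o → c k = 0 := by
    intro k hk
    have h := congrFun hc k
    rw [Finset.sum_apply, Finset.sum_eq_single k
      (fun b _ hb => by simp [Pi.single_eq_of_ne hb.symm, Pi.single_eq_of_ne hk]) (by simp)] at h
    simpa [Pi.single_eq_of_ne hk] using h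
  intro k
  by_cases hk : k = o
  · subst hk
    have h := congrFun hc k
    rw [Finset.sum_apply, Finset.sum_eq_single k
      (fun b _ hb => by simp [h1 b hb]) (by simp)] at h
    simpa [hg] using h
  · exact h1 k hk

theorem BPO_chb (hCHB : CHB_stmt) {F ι : Type} [Field F] [Fintype ι] [DecidableEq ι]
    (M : ι → ι → ι → F) (o : ι) (s g : ι → F) (hs : ∀ i, s i ≠ 0) (hg : g o = 0)
    (h : Full3 (fun i j k => ev3 M (Pi.single i (s i)) (Pi.single j 1)
      (Pi.single k 1 - Pi.single o (g k)))) : Full3 M := by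
  have hp : LinearIndependent F (fun i => (Pi.single i (s i) : ι → F)) := BPO_liP s hs
  have hq : LinearIndependent F (fun i => (Pi.single i (1 : F) : ι → F)) :=
    BPO_liP (fun _ => 1) (fun _ => one_ne_zero)
  have hr := BPO_liR o g hg
  exact hCHB F ι M _ _ _ hp hq hr h

/-- the valuation argument, for any field and valuation ring -/
theorem BPO_core (hFLX : FLX_stmt) (hNFV : NFV_stmt) (hNFC : NFC_stmt) (hCHB : CHB_stmt)
    (F κ : Type) [Field F] [Field κ] (O : ValuationSubring F) (ρ : O →+* κ)
    (hρ : ∀ x : O, O.valuation (x : F) < 1 → ρ x = 0) (l : ℕ)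
    (M : Option (Fin l) → Option (Fin l) → Option (Fin l) → F) (t : F)
    (ht : 1 < O.valuation t) (g : Fin l → O) (h000 : M none none none = t)
    (h00c : ∀ c, M none none (some c) = (g c : F) * t)
    (hA : ∀ (j : Fin l) (k : Option (Fin l)), M none (some j) k ∈ O)
    (hB : ∀ (i : Fin l) (k : Option (Fin l)), M (some i) none k ∈ O)
    (hC : ∀ (i j : Fin l) (k : Option (Fin l)), M (some i) (some j) k ∈ O)
    (hfull : Full3 (fun i j k : Fin l => ρ (⟨M (some i) (some j) (some k), hC i j (some k)⟩ : O) -
      ρ (g k) * ρ (⟨M (some i) (some j) none, hC i j none⟩ : O))) : Full3 M := by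
  classical
  have ht0 : t ≠ 0 := by
    intro h
    rw [h, map_zero] at ht
    exact absurd ht (not_lt.2 zero_le_one)
  have hinv : O.valuation t⁻¹ < 1 := by
    rw [map_inv₀]
    exact inv_lt_one_of_one_lt₀ ht
  have hinvO : t⁻¹ ∈ O := (O.valuation_le_one_iff _).1 hinv.le
  let sc : Option (Fin l) → F := fun o => o.elim t⁻¹ (fun _ => 1)
  let gc : Option (Fin l) → F := fun o => o.elim 0 (fun c => (g c : F))
  have hsc : ∀ i, sc i ≠ 0 := by
    intro i
    cases i with
    | none => exact inv_ne_zero ht0
    | some a => exact one_ne_zero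
  refine BPO_chb hCHB M none sc gc hsc rfl ?_
  have hval : ∀ i j k, ev3 M (Pi.single i (sc i)) (Pi.single j 1)
      (Pi.single k 1 - Pi.single none (gc k)) = sc i * (M i j k - gc k * M i j none) :=
    fun i j k => BPO_ev M i j k none (sc i) (gc k)
  have hgc : ∀ k, gc k ∈ O := by
    intro k
    cases k with
    | none => exact O.zero_mem
    | some c => exact (g c).2
  have hnn : ∀ k, k ≠ none → M none none k - gc k * M none none none = 0 := by
    intro k hk
    cases k with
    | none => exact absurd rfl hk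
    | some c =>
      rw [h00c, h000]
      exact sub_self _
  have hn1 : sc none * (M none none none - gc none * M none none none) = 1 := by
    rw [h000]
    show t⁻¹ * (t - 0 * t) = 1
    rw [zero_mul, sub_zero, inv_mul_cancel₀ ht0]
  have hD : ∀ (j : Fin l) (k), M none (some j) k - gc k * M none (some j) none ∈ O :=
    fun j k => sub_mem (hA j k) (O.mul_mem _ _ (hgc k) (hA j none))
  have hmem : ∀ i j k, sc i * (M i j k - gc k * M i j none) ∈ O := by
    intro i j k
    cases i with
    | none =>
      cases j with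
      | none =>
        by_cases hk : k = none
        · subst hk
          rw [hn1]
          exact O.one_mem
        · rw [hnn k hk, mul_zero]
          exact O.zero_mem
      | some j => exact O.mul_mem _ _ hinvO (hD j k)
    | some i =>
      refine O.mul_mem _ _ O.one_mem ?_
      cases j with
      | none => exact sub_mem (hB i k) (O.mul_mem _ _ (hgc k) (hB i none))
      | some j => exact sub_mem (hC i j k) (O.mul_mem _ _ (hgc k) (hC i j none))
  let MO : Option (Fin l) → Option (Fin l) → Option (Fin l) → O :=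
    fun i j k => ⟨sc i * (M i j k - gc k * M i j none), hmem i j k⟩
  have hMO : Full3 (fun i j k => ρ (MO i j k)) := by
    refine hFLX κ (Fin l) (fun i j k => ρ (MO i j k)) ?_ ?_ ?_
    · have h1 : MO none none none = 1 := Subtype.ext hn1
      show ρ (MO none none none) ≠ 0
      rw [h1, map_one]
      exact one_ne_zero
    · intro j k hjk
      show ρ (MO none j k) = 0
      cases j with
      | none =>
        have hk : k ≠ none := by
          rintro rfl
          exact hjk rfl
        have h1 : MO none none k = 0 := by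
          apply Subtype.ext
          show sc none * (M none none k - gc k * M none none none) = 0
          rw [hnn k hk, mul_zero]
        rw [h1, map_zero]
      | some j =>
        apply hρ
        show O.valuation (t⁻¹ * (M none (some j) k - gc k * M none (some j) none)) < 1
        rw [map_mul]
        exact mul_lt_one_of_lt_of_le hinv ((O.valuation_le_one_iff _).2 (hD j k))
    · have h2 : (fun i j k : Fin l => ρ (MO (some i) (some j) (some k))) =
          fun i j k : Fin l => ρ (⟨M (some i) (some j) (some k), hC i j (some k)⟩ : O) -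
            ρ (g k) * ρ (⟨M (some i) (some j) none, hC i j none⟩ : O) := by
        funext i j k
        have h1 : MO (some i) (some j) (some k) =
            (⟨M (some i) (some j) (some k), hC i j (some k)⟩ : O) -
              g k * (⟨M (some i) (some j) none, hC i j none⟩ : O) := by
          apply Subtype.ext
          show (1 : F) * (M (some i) (some j) (some k) - (g k : F) * M (some i) (some j) none) =
            M (some i) (some j) (some k) - (g k : F) * M (some i) (some j) none
          rw [one_mul]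
        rw [h1, map_sub, map_mul]
      exact h2 ▸ hfull
  by_contra hnot
  have h1 : NF (fun i j k => ((MO i j k : O) : F)) := by
    rw [hNFC]
    intro h
    apply hnot
    have h3 : (fun i j k => ev3 M (Pi.single i (sc i)) (Pi.single j 1)
      (Pi.single k 1 - Pi.single none (gc k))) = fun i j k => ((MO i j k : O) : F) := by
      funext i j k
      exact hval i j k
    exact h3 ▸ h
  exact ((hNFC κ _ _).1 (hNFV F O κ ρ _ MO h1)) hMO

/-- the entries of the minor -/
def BPO_M {X Y Z K F : Type} [Field K] [Field F] (T : X → Y → Z → K) (cst : K →+* F)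
    (a : Y → Z → F) (b : X → Z → F) (τ : Z → F) {l : ℕ} (x : Fin l → X) (y : Fin l → Y)
    (z : Option (Fin l) → Z) : Option (Fin l) → Option (Fin l) → Option (Fin l) → F
  | none, none, k => τ (z k)
  | none, some j, k => a (y j) (z k)
  | some i, none, k => b (x i) (z k)
  | some i, some j, k => cst (T (x i) (y j) (z k))

theorem BPO_abs (hCPX : CPX_stmt) (hFLX : FLX_stmt) (hNFV : NFV_stmt) (hNFC : NFC_stmt)
    (hCHB : CHB_stmt) (l : ℕ) (hS : Star l) (K : Type) [Field K] (X Y Z : Type)
    (T : X → Y → Z → K) (hT : ∀ r, ¬ S3 T r) (F κ : Type) [Field F] [Field κ] [IsAlgClosed κ]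
    (O : ValuationSubring F) (ρ : O →+* κ) (hρ : ∀ x : O, O.valuation (x : F) < 1 → ρ x = 0)
    (cst : K →+* F) (hcst : ∀ c, cst c ∈ O) (a : Y → Z → F) (ha : ∀ y z, a y z ∈ O)
    (b : X → Z → F) (hb : ∀ x z, b x z ∈ O) (τ : Z → F) (z0 : Z) (hz0 : τ z0 ∉ O) :
    ∃ (x : Fin l → X) (y : Fin l → Y) (z : Option (Fin l) → Z),
      Full3 (BPO_M T cst a b τ x y z) := by
  classical
  obtain ⟨G, hG⟩ := hS
  obtain ⟨G', N, hG'⟩ := hCPX (G + 1)
  let cO : K →+* O := cst.codRestrict O.toSubring hcst
  let φ : K →+* κ := ρ.comp cO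
  obtain ⟨x, y, z, hxyz⟩ := hG' K κ φ X Y Z T (hT G')
  let zz : Option (Fin N) → Z := fun o => o.elim z0 z
  obtain ⟨m, hm⟩ := Finite.exists_max (fun o => O.valuation (τ (zz o)))
  have hzs : 1 < O.valuation (τ (zz m)) := by
    have h1 : 1 < O.valuation (τ z0) := by
      rw [← not_le, O.valuation_le_one_iff]
      exact hz0
    exact h1.trans_le (hm none)
  have ht0 : τ (zz m) ≠ 0 := by
    intro h
    rw [h, map_zero] at hzs
    exact absurd hzs (not_lt.2 zero_le_one)
  have hg : ∀ k, τ (z k) / τ (zz m) ∈ O := by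
    intro k
    rw [← O.valuation_le_one_iff, map_div₀]
    exact div_le_one_of_le₀ (hm (some k)) zero_le
  let g : Fin N → O := fun k => ⟨_, hg k⟩
  have hnot : ¬ S3 (fun i j k => φ (T (x i) (y j) (z k)) -
      ρ (g k) * φ (T (x i) (y j) (zz m))) G := by
    intro h
    apply hxyz
    have h2 := h.add (S3.slice3 (fun k => ρ (g k)) (fun i j => φ (T (x i) (y j) (zz m))))
    have h3 : (fun i j k => φ (T (x i) (y j) (z k)) - ρ (g k) * φ (T (x i) (y j) (zz m)) +
        ρ (g k) * φ (T (x i) (y j) (zz m))) = fun i j k => φ (T (x i) (y j) (z k)) := by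
      funext i j k
      exact sub_add_cancel _ _
    exact h3 ▸ h2
  obtain ⟨ax, ay, az, hfull⟩ := hG κ (Fin N) (Fin N) (Fin N) _ hnot
  refine ⟨fun i => x (ax i), fun j => y (ay j), fun k => k.elim (zz m) (fun c => z (az c)), ?_⟩
  refine BPO_core hFLX hNFV hNFC hCHB F κ O ρ hρ l _ (τ (zz m)) hzs (fun c => g (az c)) rfl
    (fun c => ?_) (fun j k => ha _ _) (fun i k => hb _ _) (fun i j k => hcst _) ?_
  · exact (div_mul_cancel₀ _ ht0).symm
  · exact hfull

theorem BPO (hCPX : CPX_stmt) (hFLX : FLX_stmt) (hNFV : NFV_stmt) (hLOS : LOS_stmt)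
    (hNFC : NFC_stmt) (hCHB : CHB_stmt) : BPO_stmt := by
  intro l hS K _ _ X Y Z T hT hF Ω 𝓅 O ξ η hX hY z0
  by_contra hz0
  have hρ : ∀ x : O, O.valuation (x : UF 𝓅 fun _ : Ω => K) < 1 →
      ((algebraMap (IsLocalRing.ResidueField O)
        (AlgebraicClosure (IsLocalRing.ResidueField O))).comp (IsLocalRing.residue O)) x = 0 := by
    intro x hx
    have h1 : IsLocalRing.residue O x = 0 :=
      (IsLocalRing.residue_eq_zero_iff x).2 ((O.valuation_lt_one_iff x).2 hx)
    rw [RingHom.comp_apply, h1, map_zero]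
  obtain ⟨x, y, z, hfull⟩ := BPO_abs hCPX hFLX hNFV hNFC hCHB l hS K X Y Z T hT
    (UF 𝓅 fun _ : Ω => K) (AlgebraicClosure (IsLocalRing.ResidueField O)) O _ hρ
    (UF.const 𝓅 K) (fun c => hX (fun _ => c))
    (fun y z => UF.mk 𝓅 (fun ω => T (ξ ω) y z)) (fun y z => hX (fun x => T x y z))
    (fun x z => UF.mk 𝓅 (fun ω => T x (η ω) z)) (fun x z => hY (fun y => T x y z))
    (fun z => UF.mk 𝓅 (fun ω => T (ξ ω) (η ω) z)) z0 hz0
  apply hF
  have hcard : Fintype.card (Option (Fin l)) = l + 1 := by simp
  have hM : BPO_M T (UF.const 𝓅 K) (fun y z => UF.mk 𝓅 (fun ω => T (ξ ω) y z))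
      (fun x z => UF.mk 𝓅 (fun ω => T x (η ω) z)) (fun z => UF.mk 𝓅 (fun ω => T (ξ ω) (η ω) z))
      x y z = fun i j k => UF.mk 𝓅 (fun ω =>
        T (i.elim (ξ ω) x) (j.elim (η ω) y) (z k)) := by
    funext i j k
    cases i <;> cases j <;> rfl
  rw [hM] at hfull
  by_contra hno
  have h1 : ∀ᶠ ω in (𝓅 : Filter Ω), NF (fun i j k : Option (Fin l) =>
      T (i.elim (ξ ω) x) (j.elim (η ω) y) (z k)) := by
    refine Filter.Eventually.of_forall (fun ω => ?_)
    rw [hNFC]
    intro h
    exact hno (HasFull.of_fintype hcard (fun i : Option (Fin l) => i.elim (ξ ω) x)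
      (fun j : Option (Fin l) => j.elim (η ω) y) z h)
  have h2 := hLOS Ω 𝓅 (fun _ => K) (Option (Fin l)) (fun ω i j k =>
      T (i.elim (ξ ω) x) (j.elim (η ω) y) (z k)) h1
  exact ((hNFC _ _ _).1 h2) hfull

end Pool.Agent.helper26.IM
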